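import Pool.Agent.Helper13.TR.StA

/-!
# Project TR, module HOM: homeomorphic spaces
-/

set_option autoImplicit false

namespace Pool.Agent.Helper26.TR

open Set Topology Pool.Agent.Helper13.TR

private lemma push_cyc (hPSH : StPSH) {X Y : Type} [TopologicalSpace X] [TopologicalSpace Y]
    (f : C(X, Y)) (A : Set X) (B : Set Y) (hAB : A = f ⁻¹' B) (n : ℕ) (c : Ch X n)
    (hc : c ∈ Cyc A n) : push f n c ∈ Cyc B n := by
  subst hAB
  obtain ⟨h1, -, h3, -⟩ := hPSH X Y Y f (ContinuousMap.id Y)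
  cases n with
  | zero => exact Submodule.mem_top
  | succ n =>
    have hc' : bd n c ∈ cin (f ⁻¹' B)ᶜ n := hc
    show bd n (push f (n + 1) c) ∈ cin Bᶜ n
    rw [h1 n c]
    refine h3 Bᶜ n _ ?_
    rwa [preimage_compl]

private lemma push_nul (hPSH : StPSH) {X Y : Type} [TopologicalSpace X] [TopologicalSpace Y]
    (f : C(X, Y)) (A : Set X) (B : Set Y) (hAB : A = f ⁻¹' B) (n : ℕ) (c : Ch X n)
    (hc : c ∈ Nul A n) : push f n c ∈ Nul B n := by
  subst hAB
  obtain ⟨h1, -, h3, -⟩ := hPSH X Y Y f (ContinuousMap.id Y)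
  obtain ⟨r, hr, b', hb', rfl⟩ := Submodule.mem_sup.1 hc
  obtain ⟨b, rfl⟩ := LinearMap.mem_range.1 hb'
  rw [map_add]
  refine Submodule.add_mem_sup ?_ ?_
  · refine h3 Bᶜ n _ ?_
    rwa [preimage_compl]
  · exact LinearMap.mem_range.2 ⟨push f (n + 1) b, h1 n b⟩

private lemma push_id {X : Type} [TopologicalSpace X] (n : ℕ) (c : Ch X n) :
    push (ContinuousMap.id X) n c = c := by
  have e : (fun σ : Sx X n => (ContinuousMap.id X).comp σ) = id := by
    funext σ
    exact ContinuousMap.id_comp σ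
  show Finsupp.mapDomain (fun σ : Sx X n => (ContinuousMap.id X).comp σ) c = c
  rw [e]
  exact Finsupp.mapDomain_id

private lemma push_inv (hPSH : StPSH) {X Y : Type} [TopologicalSpace X] [TopologicalSpace Y]
    (f : C(X, Y)) (g : C(Y, X)) (h : g.comp f = ContinuousMap.id X) (n : ℕ) (c : Ch X n) :
    push g n (push f n c) = c := by
  obtain ⟨-, h2, -⟩ := hPSH X Y X f g
  rw [← h2 n c, h]
  exact push_id n c

theorem hHOM (hPSH : StPSH) : StHOM := by
  intro X Y _ _ hXY hX
  obtain ⟨h⟩ := hXY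
  let f : C(X, Y) := ⟨h, h.continuous⟩
  let g : C(Y, X) := ⟨h.symm, h.symm.continuous⟩
  have fg : f.comp g = ContinuousMap.id Y := by
    ext y
    exact h.apply_symm_apply y
  have pfg : ∀ (n : ℕ) (c : Ch Y n), push f n (push g n c) = c := fun n c =>
    push_inv hPSH g f fg n c
  have gf : g.comp f = ContinuousMap.id X := by
    ext x
    exact h.symm_apply_apply x
  have pgf : ∀ (n : ℕ) (c : Ch X n), push g n (push f n c) = c := fun n c =>
    push_inv hPSH f g gf n c
  -- points
  have e1 : ∀ y : Y, ({y} : Set Y) = g ⁻¹' {g y} := by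
    intro y
    ext z
    simp only [mem_singleton_iff, mem_preimage]
    exact (h.symm.injective.eq_iff (a := z) (b := y)).symm
  have e2 : ∀ y : Y, ({g y} : Set X) = f ⁻¹' {y} := by
    intro y
    ext z
    simp only [mem_singleton_iff, mem_preimage]
    constructor
    · rintro rfl
      exact h.apply_symm_apply y
    · intro hz
      have : h z = y := hz
      show z = h.symm y
      rw [← this, h.symm_apply_apply]
  refine ⟨?_, ?_⟩
  · intro y k hk c hc
    have hc1 : push g k c ∈ Cyc {g y} k := push_cyc hPSH g {y} {g y} (e1 y) k c hc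
    have hc2 := hX.low (g y) k hk hc1
    have hc3 := push_nul hPSH f {g y} {y} (e2 y) k _ hc2
    rwa [pfg] at hc3
  · intro y
    obtain ⟨N, hN, hyN, c, hc, hgen⟩ := hX.ori (g y)
    refine ⟨g ⁻¹' N, hN.preimage g.continuous, hyN, push f 3 c, ?_, ?_⟩
    · refine push_cyc hPSH f N (g ⁻¹' N) ?_ 3 c hc
      ext x
      simp only [mem_preimage]
      have : g (f x) = x := h.symm_apply_apply x
      rw [this]
    · intro z hz
      obtain ⟨ga, gb⟩ := hgen (g z) hz
      refine ⟨?_, ?_⟩
      · intro κ hκ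
        obtain ⟨m, hm⟩ := ga (push g 3 κ) (push_cyc hPSH g {z} {g z} (e1 z) 3 κ hκ)
        refine ⟨m, ?_⟩
        have h4 := push_nul hPSH f {g z} {z} (e2 z) 3 _ hm
        rwa [map_sub, map_smul, pfg] at h4
      · intro m hm
        refine gb m ?_
        have h4 := push_nul hPSH g {z} {g z} (e1 z) 3 _ hm
        rwa [map_smul, pgf] at h4

end Pool.Agent.Helper26.TR
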